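import Pool.Agent.H30.Chung.Bip

/-! Chung's upper bound for bipartite graphs. -/

set_option autoImplicit false

namespace Pool.Agent.Results.MP_4d273f_co.Bipartite

/-- In a finite bipartite graph, if there are no `m + 1` internally disjoint `v`-`w` paths of
length at most `d`, then some set of at most `(d + 1) m / 3` vertices meets all `v`-`w` paths of
length at most `d`. -/
theorem result {V : Type*} [Fintype V] (G : SimpleGraph V) (hG : G.IsBipartite) (v w : V)
    (hvw : v ≠ w) (hadj : ¬ G.Adj v w) (d m : ℕ)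
    (hm : ¬ ∃ f : Fin (m + 1) → G.Walk v w,
      (∀ i, (f i).IsPath ∧ (f i).length ≤ d) ∧
      ∀ i j, i ≠ j → ∀ x, x ∈ (f i).support → x ∈ (f j).support → x = v ∨ x = w) :
    ∃ S : Finset V, v ∉ S ∧ w ∉ S ∧
      (∀ p : G.Walk v w, p.IsPath → p.length ≤ d → ∃ x ∈ S, x ∈ p.support) ∧
      3 * S.card ≤ (d + 1) * m := by
  classical
  obtain ⟨C⟩ := hG
  obtain ⟨S, h1, h2, h3, h4⟩ := Pool.Agent.H30.Chung.Bip.bip_main hvw hadj
    (fun x => decide (C x = 0)) (by
      intro x y hxy h
      have h5 : C x ≠ C y := C.valid hxy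
      have h6 : (C x = 0) ↔ (C y = 0) := by simpa using h
      apply h5
      generalize C x = a at *
      generalize C y = b at *
      fin_cases a <;> fin_cases b <;> simp_all) d m (by
    intro q P hp hd hl
    by_contra hq
    push Not at hq
    apply hm
    refine ⟨fun i => P (Fin.castLE hq i), fun i => ⟨hp _, hl _⟩, fun i j hij x hi hj => ?_⟩
    exact hd _ _ (fun h => hij (Fin.castLE_injective hq h)) x hi hj)
  exact ⟨S, h1, h2, fun p _ hp => h3 p hp, h4⟩

end Pool.Agent.Results.MP_4d273f_co.Bipartite
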