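import Pool.Agent.H30.Chung.MuOne

/-! Pairs without two disjoint short paths: at most `(d + 1) / 3` vertices meet all short paths. -/

set_option autoImplicit false

namespace Pool.Agent.Results.MP_4d273f_co.MuOne

/-- In every simple graph (finite or not), if there are no two paths from `v` to `w` of length at
most `d` which share only `v` and `w`, then at most `⌊(d + 1) / 3⌋` vertices meet all paths from
`v` to `w` of length at most `d`. -/
theorem result {V : Type*} (G : SimpleGraph V) (v w : V) (d : ℕ) (hvw : v ≠ w)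
    (hadj : ¬ G.Adj v w)
    (hm : ¬ ∃ p q : G.Walk v w, (p.IsPath ∧ p.length ≤ d) ∧ (q.IsPath ∧ q.length ≤ d) ∧
      ∀ x, x ∈ p.support → x ∈ q.support → x = v ∨ x = w) :
    ∃ S : Finset V, v ∉ S ∧ w ∉ S ∧ S.card ≤ (d + 1) / 3 ∧
      ∀ p : G.Walk v w, p.IsPath → p.length ≤ d → ∃ x ∈ S, x ∈ p.support :=
  Pool.Agent.H30.Chung.muOne G v w d hvw hadj (by
    rintro ⟨p, q, hp, hpl, hq, hql, h⟩
    exact hm ⟨p, q, ⟨hp, hpl⟩, ⟨hq, hql⟩, h⟩)

end Pool.Agent.Results.MP_4d273f_co.MuOne
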